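import Pool.Agent.H52.PSR.Targets

/-!
# Row OCT of the board `psr_modules` (MP_29035e_co)
-/

set_option autoImplicit false

namespace Pool.Agent.H35.PSR

open Module Pool.Agent.H52.PSR

theorem N8_add {E : Type} [Field E] (x y : Fin 8 → E) :
    N8 (x + y) = N8 x + N8 y + 2 * B8 x y := by
  unfold N8 B8
  rw [Finset.mul_sum, ← Finset.sum_add_distrib, ← Finset.sum_add_distrib]
  refine Finset.sum_congr rfl fun i _ => ?_
  rw [Pi.add_apply]
  ring

theorem B8_self {E : Type} [Field E] (x : Fin 8 → E) : B8 x x = N8 x := by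
  unfold N8 B8
  exact Finset.sum_congr rfl fun i _ => by ring

/-- totally singular subspaces have dimension at most four -/
theorem ts4 {E : Type} [Field E] (h2 : (2 : E) ≠ 0) (W : Submodule E (Fin 8 → E))
    (hW : ∀ z ∈ W, N8 z = 0) : finrank E W ≤ 4 := by
  have hB : ∀ x ∈ W, ∀ y ∈ W, B8 x y = 0 := by
    intro x hx y hy
    have h := N8_add x y
    rw [hW _ (W.add_mem hx hy), hW _ hx, hW _ hy, zero_add, zero_add] at h
    exact (mul_eq_zero.1 h.symm).resolve_left h2
  have hle : W.map (dotProductEquiv E (Fin 8)).toLinearMap ≤ W.dualAnnihilator := by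
    rintro _ ⟨x, hx, rfl⟩
    rw [Submodule.mem_dualAnnihilator]
    intro y hy
    have := hB x hx y hy
    exact this
  have h1 := Subspace.finrank_add_finrank_dualAnnihilator_eq W
  have h3 := Submodule.finrank_mono hle
  have h4 : finrank E (W.map (dotProductEquiv E (Fin 8)).toLinearMap) = finrank E W :=
    LinearEquiv.finrank_map_eq (dotProductEquiv E (Fin 8)) W
  rw [h4] at h3
  rw [finrank_fin_fun] at h1
  omega

theorem pf_OCT (h1 : T_OCI) : T_OCT := by
  intro E _ h2
  obtain ⟨m, c, hcc, hcN, ha, hb⟩ := h1 E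
  have sing : ∀ a, a ≠ 0 → ∀ z ∈ LinearMap.ker (m a), N8 z = 0 := by
    intro a ha0 z hz
    rw [LinearMap.mem_ker] at hz
    have h := hb a z
    rw [hz, map_zero, LinearMap.zero_apply] at h
    exact (smul_eq_zero.1 h.symm).resolve_right ha0
  refine ⟨fun a => LinearMap.ker (m a), ?_, ?_⟩
  · intro a ha0 haN
    refine ⟨?_, sing a ha0⟩
    have hca0 : c a ≠ 0 := by
      intro h
      apply ha0
      rw [← hcc a, h, map_zero]
    have k1 := ts4 h2 _ (sing a ha0)
    have k2 := ts4 h2 _ (sing (c a) hca0)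
    have hr : LinearMap.range (m a) ≤ LinearMap.ker (m (c a)) := by
      rintro _ ⟨z, rfl⟩
      rw [LinearMap.mem_ker]
      have h := ha a a z
      rw [B8_self, haN, mul_zero, zero_smul, ← two_smul E] at h
      exact (smul_eq_zero.1 h).resolve_left h2
    have k3 := Submodule.finrank_mono hr
    have k4 := LinearMap.finrank_range_add_finrank_ker (m a)
    rw [finrank_fin_fun] at k4
    show finrank E (LinearMap.ker (m a)) = 4
    omega
  · intro a b haN hbN hab
    rw [Submodule.eq_bot_iff]
    rintro z ⟨hz1, hz2⟩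
    have e1 : m a z = 0 := hz1
    have e2 : m b z = 0 := hz2
    have h := ha a b z
    rw [e1, e2, map_zero, map_zero, add_zero] at h
    exact (smul_eq_zero.1 h.symm).resolve_left (mul_ne_zero h2 hab)

end Pool.Agent.H35.PSR
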